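import Mathlib
import Pool.Agent.Q281.Interl

set_option autoImplicit false

/-!
# Interlacing of the specialised multivariate Eulerian polynomials (MP_9d2565_co)
-/

namespace Pool.Agent.Results.MP_9d2565_co.Interlacing

open Polynomial Pool.Agent.Q281.Interl

/-- The descent positions of a permutation of `n` letters (positions numbered `1, ..., n - 1`;
`Fin n` numbers the letters and their places from `0`). -/
def DES {n : ℕ} (π : Equiv.Perm (Fin n)) : Finset ℕ :=
  (Finset.range n).filter (fun k => ∃ (_ : 1 ≤ k) (h : k < n), π ⟨k, h⟩ < π ⟨k - 1, by omega⟩)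

/-- `e_n(t) = E_n(lam_1 t, ..., lam_{n-1} t)`. -/
noncomputable def e (lam : ℕ → ℝ) (n : ℕ) : ℝ[X] :=
  ∑ π : Equiv.Perm (Fin n), ∏ k ∈ DES π, (C (lam k) * X)

/-! ### insertion of the last letter -/

/-- the permutation with last value `i` whose other values are in the order given by `σ` -/
noncomputable def ins {n : ℕ} (i : Fin (n + 1)) (σ : Equiv.Perm (Fin n)) :
    Equiv.Perm (Fin (n + 1)) :=
  Equiv.ofBijective (Fin.snoc (α := fun _ => Fin (n + 1)) (fun k => i.succAbove (σ k)) i) (by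
    rw [← Finite.injective_iff_bijective]
    intro a b
    refine Fin.lastCases ?_ (fun a => ?_) a <;> refine Fin.lastCases ?_ (fun b => ?_) b
    · intro _; rfl
    · intro h
      simp only [Fin.snoc_last, Fin.snoc_castSucc] at h
      exact absurd h.symm (Fin.succAbove_ne _ _)
    · intro h
      simp only [Fin.snoc_last, Fin.snoc_castSucc] at h
      exact absurd h (Fin.succAbove_ne _ _)
    · intro h
      simp only [Fin.snoc_castSucc] at h
      rw [σ.injective (Fin.succAbove_right_injective h)])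

theorem ins_last {n : ℕ} (i : Fin (n + 1)) (σ : Equiv.Perm (Fin n)) :
    ins i σ (Fin.last n) = i := by
  simp [ins]

theorem ins_castSucc {n : ℕ} (i : Fin (n + 1)) (σ : Equiv.Perm (Fin n)) (k : Fin n) :
    ins i σ k.castSucc = i.succAbove (σ k) := by
  simp [ins]

theorem ins_bij (n : ℕ) :
    Function.Bijective (fun p : Fin (n + 1) × Equiv.Perm (Fin n) => ins p.1 p.2) := by
  rw [Fintype.bijective_iff_injective_and_card]
  refine ⟨?_, ?_⟩
  · rintro ⟨i, σ⟩ ⟨j, τ⟩ h
    simp only at h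
    have h1 : i = j := by
      have := congrArg (fun π => π (Fin.last n)) h
      simpa [ins_last] using this
    subst h1
    have h2 : σ = τ := by
      ext k
      have := congrArg (fun π => π k.castSucc) h
      simp only [ins_castSucc] at this
      rw [Fin.succAbove_right_injective this]
    rw [h2]
  · rw [Fintype.card_prod, Fintype.card_perm, Fintype.card_perm, Fintype.card_fin,
      Fintype.card_fin, Nat.factorial_succ]

theorem sum_ins {n : ℕ} {M : Type} [AddCommMonoid M] (f : Equiv.Perm (Fin (n + 1)) → M) :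
    ∑ π, f π = ∑ i, ∑ σ : Equiv.Perm (Fin n), f (ins i σ) := by
  rw [← (ins_bij n).sum_comp f, Fintype.sum_prod_type]

theorem DES_lt {n : ℕ} (π : Equiv.Perm (Fin n)) {k : ℕ} (hk : k ∈ DES π) : 1 ≤ k ∧ k < n := by
  rw [DES, Finset.mem_filter] at hk
  exact ⟨hk.2.1, Finset.mem_range.1 hk.1⟩

theorem mem_DES_ins {n : ℕ} (i : Fin (n + 2)) (σ : Equiv.Perm (Fin (n + 1))) (k : ℕ) :
    k ∈ DES (ins i σ) ↔ k ∈ DES σ ∨ (k = n + 1 ∧ i ≤ (σ (Fin.last n)).castSucc) := by
  constructor
  · intro hk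
    rw [DES, Finset.mem_filter] at hk
    obtain ⟨_, h1, h2, h3⟩ := hk
    by_cases hkn : k = n + 1
    · right
      subst hkn
      refine ⟨rfl, ?_⟩
      have e1 : (⟨n + 1, h2⟩ : Fin (n + 2)) = Fin.last (n + 1) := rfl
      have e2 : (⟨n + 1 - 1, by omega⟩ : Fin (n + 2)) = (Fin.last n).castSucc := rfl
      rw [e1, e2, ins_last, ins_castSucc, Fin.lt_succAbove_iff_le_castSucc] at h3
      exact h3
    · left
      have h4 : k < n + 1 := by omega
      rw [DES, Finset.mem_filter, Finset.mem_range]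
      refine ⟨h4, h1, h4, ?_⟩
      have e1 : (⟨k, h2⟩ : Fin (n + 2)) = (⟨k, h4⟩ : Fin (n + 1)).castSucc := rfl
      have e2 : (⟨k - 1, by omega⟩ : Fin (n + 2)) = (⟨k - 1, by omega⟩ : Fin (n + 1)).castSucc :=
        rfl
      rw [e1, e2, ins_castSucc, ins_castSucc, Fin.succAbove_lt_succAbove_iff] at h3
      exact h3
  · rintro (hk | ⟨rfl, hi⟩)
    · rw [DES, Finset.mem_filter] at hk
      obtain ⟨_, h1, h2, h3⟩ := hk
      rw [DES, Finset.mem_filter, Finset.mem_range]
      refine ⟨by omega, h1, by omega, ?_⟩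
      have e1 : (⟨k, by omega⟩ : Fin (n + 2)) = (⟨k, h2⟩ : Fin (n + 1)).castSucc := rfl
      have e2 : (⟨k - 1, by omega⟩ : Fin (n + 2)) = (⟨k - 1, by omega⟩ : Fin (n + 1)).castSucc :=
        rfl
      rw [e1, e2, ins_castSucc, ins_castSucc, Fin.succAbove_lt_succAbove_iff]
      exact h3
    · rw [DES, Finset.mem_filter, Finset.mem_range]
      refine ⟨by omega, by omega, by omega, ?_⟩
      have e1 : (⟨n + 1, by omega⟩ : Fin (n + 2)) = Fin.last (n + 1) := rfl
      have e2 : (⟨n + 1 - 1, by omega⟩ : Fin (n + 2)) = (Fin.last n).castSucc := rfl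
      rw [e1, e2, ins_last, ins_castSucc, Fin.lt_succAbove_iff_le_castSucc]
      exact hi

theorem prod_DES_ins {n : ℕ} {M : Type} [CommMonoid M] (f : ℕ → M) (i : Fin (n + 2))
    (σ : Equiv.Perm (Fin (n + 1))) :
    ∏ k ∈ DES (ins i σ), f k =
      (if i ≤ (σ (Fin.last n)).castSucc then f (n + 1) else 1) * ∏ k ∈ DES σ, f k := by
  split_ifs with h
  · have h1 : DES (ins i σ) = insert (n + 1) (DES σ) := by
      ext k
      rw [mem_DES_ins, Finset.mem_insert]
      constructor
      · rintro (h2 | h2)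
        · exact Or.inr h2
        · exact Or.inl h2.1
      · rintro (h2 | h2)
        · exact Or.inr ⟨h2, h⟩
        · exact Or.inl h2
    rw [h1, Finset.prod_insert]
    intro h2
    have := DES_lt σ h2
    omega
  · have h1 : DES (ins i σ) = DES σ := by
      ext k
      rw [mem_DES_ins]
      constructor
      · rintro (h2 | h2)
        · exact h2
        · exact absurd h2.2 h
      · intro h2
        exact Or.inl h2
    rw [h1, one_mul]

/-- the part of `e_{n+1}` coming from the permutations with last value `i` -/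
noncomputable def F (lam : ℕ → ℝ) (n : ℕ) (i : Fin (n + 1)) : ℝ[X] :=
  ∑ σ : Equiv.Perm (Fin n), ∏ k ∈ DES (ins i σ), (C (lam k) * X)

theorem e_succ (lam : ℕ → ℝ) (n : ℕ) : e lam (n + 1) = ∑ i, F lam n i := by
  rw [e, sum_ins]; rfl

theorem F_succ (lam : ℕ → ℝ) (n : ℕ) (i : Fin (n + 2)) : F lam (n + 1) i =
    ∑ j : Fin (n + 1), (if i ≤ j.castSucc then C (lam (n + 1)) * X else 1) * F lam n j := by
  rw [F, sum_ins]
  refine Finset.sum_congr rfl fun j _ => ?_
  rw [F, Finset.mul_sum]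
  refine Finset.sum_congr rfl fun σ _ => ?_
  rw [prod_DES_ins, ins_last]

theorem F_last (lam : ℕ → ℝ) (n : ℕ) : F lam n (Fin.last n) = e lam n := by
  rw [F, e]
  refine Finset.sum_congr rfl fun σ _ => ?_
  rcases n with _ | n
  · have h1 : ∀ (m : ℕ) (_ : m ≤ 1) (π : Equiv.Perm (Fin m)), DES π = ∅ := by
      intro m hm π
      rw [Finset.eq_empty_iff_forall_notMem]
      intro k hk
      have := DES_lt π hk
      omega
    rw [h1 _ (by omega), h1 _ (by omega)]
  · rw [prod_DES_ins, if_neg (not_le.2 (Fin.castSucc_lt_last _)), one_mul]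

/-! ### the Wronskian inequalities -/

theorem pair_step (x L a a' b b' c c' : ℝ) (hL : 0 ≤ L)
    (w1 : 0 ≤ a * b' - a' * b) (r1 : 0 ≤ a * b - x * (a * b' - a' * b))
    (w2 : 0 ≤ b * c' - b' * c) (r2 : 0 ≤ b * c - x * (b * c' - b' * c)) :
    L * b ^ 2 ≤ (L * x * a + (b + c)) * (L * ((a + b) + x * (a' + b')) + c') -
        (L * (a + x * a') + (b' + c')) * (L * x * (a + b) + c) ∧
    0 ≤ (L * x * a + (b + c)) * (L * x * (a + b) + c) -
      x * ((L * x * a + (b + c)) * (L * ((a + b) + x * (a' + b')) + c') -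
        (L * (a + x * a') + (b' + c')) * (L * x * (a + b) + c)) := by
  constructor
  · have h : (L * x * a + (b + c)) * (L * ((a + b) + x * (a' + b')) + c') -
        (L * (a + x * a') + (b' + c')) * (L * x * (a + b) + c) =
        L ^ 2 * x ^ 2 * (a * b' - a' * b) + L * (a * b - x * (a * b' - a' * b)) + L * b ^ 2 +
          (b * c' - b' * c) + L * (b * c - x * (b * c' - b' * c)) := by ring
    rw [h]
    have h1 : 0 ≤ L ^ 2 * x ^ 2 * (a * b' - a' * b) := by positivity
    have h2 : 0 ≤ L * (a * b - x * (a * b' - a' * b)) := mul_nonneg hL r1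
    have h3 : 0 ≤ L * (b * c - x * (b * c' - b' * c)) := mul_nonneg hL r2
    linarith
  · have h : (L * x * a + (b + c)) * (L * x * (a + b) + c) -
      x * ((L * x * a + (b + c)) * (L * ((a + b) + x * (a' + b')) + c') -
        (L * (a + x * a') + (b' + c')) * (L * x * (a + b) + c)) =
        (L * x * a + c) ^ 2 + L * x ^ 2 * (a * b' - a' * b) +
          L ^ 2 * x ^ 2 * (a * b - x * (a * b' - a' * b)) + L * x ^ 2 * (b * c' - b' * c) +
          (b * c - x * (b * c' - b' * c)) := by ring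
    rw [h]
    positivity

theorem sum_w {ι : Type} (S T : Finset ι) (v d : ι → ℝ) (x : ℝ)
    (hw : ∀ j ∈ S, ∀ k ∈ T, 0 ≤ v j * d k - d j * v k ∧
      0 ≤ v j * v k - x * (v j * d k - d j * v k)) :
    0 ≤ (∑ j ∈ S, v j) * (∑ k ∈ T, d k) - (∑ j ∈ S, d j) * (∑ k ∈ T, v k) ∧
    0 ≤ (∑ j ∈ S, v j) * (∑ k ∈ T, v k) - x * ((∑ j ∈ S, v j) * (∑ k ∈ T, d k) -
      (∑ j ∈ S, d j) * (∑ k ∈ T, v k)) := by
  have h1 : (∑ j ∈ S, v j) * (∑ k ∈ T, d k) - (∑ j ∈ S, d j) * (∑ k ∈ T, v k) =
      ∑ j ∈ S, ∑ k ∈ T, (v j * d k - d j * v k) := by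
    rw [Finset.sum_mul_sum, Finset.sum_mul_sum, ← Finset.sum_sub_distrib]
    refine Finset.sum_congr rfl fun j _ => ?_
    rw [← Finset.sum_sub_distrib]
  have h2 : (∑ j ∈ S, v j) * (∑ k ∈ T, v k) = ∑ j ∈ S, ∑ k ∈ T, v j * v k :=
    Finset.sum_mul_sum _ _ _ _
  rw [h1, h2]
  refine ⟨Finset.sum_nonneg fun j hj => Finset.sum_nonneg fun k hk => (hw j hj k hk).1, ?_⟩
  rw [Finset.mul_sum, ← Finset.sum_sub_distrib]
  refine Finset.sum_nonneg fun j hj => ?_
  rw [Finset.mul_sum, ← Finset.sum_sub_distrib]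
  exact Finset.sum_nonneg fun k hk => (hw j hj k hk).2

/-- the three index ranges -/
def SA {N : ℕ} (i : Fin (N + 1)) : Finset (Fin N) := Finset.univ.filter (fun j => i ≤ j.castSucc)

/-- the three index ranges -/
def SB {N : ℕ} (i i' : Fin (N + 1)) : Finset (Fin N) :=
  Finset.univ.filter (fun j => i' ≤ j.castSucc ∧ j.castSucc < i)

/-- the three index ranges -/
def SC {N : ℕ} (i' : Fin (N + 1)) : Finset (Fin N) := Finset.univ.filter (fun j => j.castSucc < i')

theorem split_one {N : ℕ} (i i' : Fin (N + 1)) (hi : i' ≤ i) (u w : Fin N → ℝ) :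
    ∑ j : Fin N, (if i ≤ j.castSucc then u j else w j) =
      ∑ j ∈ SA i, u j + (∑ j ∈ SB i i', w j + ∑ j ∈ SC i', w j) := by
  unfold SA SB SC
  rw [Finset.sum_filter, Finset.sum_filter, Finset.sum_filter, ← Finset.sum_add_distrib,
    ← Finset.sum_add_distrib]
  refine Finset.sum_congr rfl fun j _ => ?_
  by_cases h1 : i ≤ j.castSucc
  · rw [if_pos h1, if_pos h1, if_neg (fun h => absurd h.2 (not_lt.2 h1)),
      if_neg (not_lt.2 (hi.trans h1))]
    ring
  · rw [if_neg h1, if_neg h1]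
    by_cases h2 : i' ≤ j.castSucc
    · rw [if_pos ⟨h2, not_le.1 h1⟩, if_neg (not_lt.2 h2)]; ring
    · rw [if_neg (fun h => h2 h.1), if_pos (not_le.1 h2)]; ring

theorem split_two {N : ℕ} (i i' : Fin (N + 1)) (hi : i' ≤ i) (u w : Fin N → ℝ) :
    ∑ j : Fin N, (if i' ≤ j.castSucc then u j else w j) =
      (∑ j ∈ SA i, u j + ∑ j ∈ SB i i', u j) + ∑ j ∈ SC i', w j := by
  unfold SA SB SC
  rw [Finset.sum_filter, Finset.sum_filter, Finset.sum_filter, ← Finset.sum_add_distrib,
    ← Finset.sum_add_distrib]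
  refine Finset.sum_congr rfl fun j _ => ?_
  by_cases h1 : i ≤ j.castSucc
  · rw [if_pos (hi.trans h1), if_pos h1, if_neg (fun h => absurd h.2 (not_lt.2 h1)),
      if_neg (not_lt.2 (hi.trans h1))]
    ring
  · rw [if_neg h1]
    by_cases h2 : i' ≤ j.castSucc
    · rw [if_pos h2, if_pos ⟨h2, not_le.1 h1⟩, if_neg (not_lt.2 h2)]; ring
    · rw [if_neg h2, if_neg (fun h => h2 h.1), if_pos (not_le.1 h2)]; ring

/-- values and derivatives of the next family -/
theorem next_eval (lam : ℕ → ℝ) (n : ℕ) (i : Fin (n + 2)) (x : ℝ) :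
    (F lam (n + 1) i).eval x = ∑ j : Fin (n + 1), (if i ≤ j.castSucc then
      lam (n + 1) * x * (F lam n j).eval x else (F lam n j).eval x) := by
  rw [F_succ, eval_finsetSum]
  refine Finset.sum_congr rfl fun j _ => ?_
  split_ifs <;> simp

theorem next_deriv (lam : ℕ → ℝ) (n : ℕ) (i : Fin (n + 2)) (x : ℝ) :
    (F lam (n + 1) i).derivative.eval x = ∑ j : Fin (n + 1), (if i ≤ j.castSucc then
      lam (n + 1) * ((F lam n j).eval x + x * (F lam n j).derivative.eval x) else
      (F lam n j).derivative.eval x) := by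
  rw [F_succ, derivative_sum, eval_finsetSum]
  refine Finset.sum_congr rfl fun j _ => ?_
  split_ifs
  · simp only [derivative_mul, derivative_C, derivative_X, eval_add, eval_mul, eval_C, eval_X,
      zero_mul, mul_one, zero_add]
    ring
  · simp

/-- the inequalities for one step -/
theorem step {lam : ℕ → ℝ} (hl : ∀ k, 0 < lam k) (n : ℕ) (x : ℝ)
    (ih : ∀ k j : Fin (n + 1), k < j →
      0 ≤ (F lam n j).eval x * (F lam n k).derivative.eval x -
        (F lam n j).derivative.eval x * (F lam n k).eval x ∧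
      0 ≤ (F lam n j).eval x * (F lam n k).eval x - x *
        ((F lam n j).eval x * (F lam n k).derivative.eval x -
        (F lam n j).derivative.eval x * (F lam n k).eval x)) (i' i : Fin (n + 2)) (hi : i' ≤ i) :
    lam (n + 1) * (∑ j ∈ SB i i', (F lam n j).eval x) ^ 2 ≤
      (F lam (n + 1) i).eval x * (F lam (n + 1) i').derivative.eval x -
        (F lam (n + 1) i).derivative.eval x * (F lam (n + 1) i').eval x ∧
      0 ≤ (F lam (n + 1) i).eval x * (F lam (n + 1) i').eval x - x *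
        ((F lam (n + 1) i).eval x * (F lam (n + 1) i').derivative.eval x -
        (F lam (n + 1) i).derivative.eval x * (F lam (n + 1) i').eval x) := by
  set v : Fin (n + 1) → ℝ := fun j => (F lam n j).eval x with hv
  set d : Fin (n + 1) → ℝ := fun j => (F lam n j).derivative.eval x with hd
  set L := lam (n + 1) with hL
  have hAB := sum_w (SA i) (SB i i') v d x (fun j hj k hk => ih k j (by
    rw [SA, Finset.mem_filter] at hj
    rw [SB, Finset.mem_filter] at hk
    exact Fin.castSucc_lt_castSucc_iff.1 (hk.2.2.trans_le hj.2)))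
  have hBC := sum_w (SB i i') (SC i') v d x (fun j hj k hk => ih k j (by
    rw [SB, Finset.mem_filter] at hj
    rw [SC, Finset.mem_filter] at hk
    exact Fin.castSucc_lt_castSucc_iff.1 (hk.2.trans_le hj.2.1)))
  have key := pair_step x L (∑ j ∈ SA i, v j) (∑ j ∈ SA i, d j) (∑ j ∈ SB i i', v j)
    (∑ j ∈ SB i i', d j) (∑ j ∈ SC i', v j) (∑ j ∈ SC i', d j) (hl _).le hAB.1 hAB.2 hBC.1 hBC.2
  have e1 : (F lam (n + 1) i).eval x = L * x * (∑ j ∈ SA i, v j) +
      (∑ j ∈ SB i i', v j + ∑ j ∈ SC i', v j) := by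
    rw [next_eval, split_one i i' hi, Finset.mul_sum]
  have e2 : (F lam (n + 1) i').eval x = L * x * ((∑ j ∈ SA i, v j) + ∑ j ∈ SB i i', v j) +
      ∑ j ∈ SC i', v j := by
    rw [next_eval, split_two i i' hi, mul_add, Finset.mul_sum, Finset.mul_sum]
  have e3 : (F lam (n + 1) i).derivative.eval x = L * (∑ j ∈ SA i, v j + x * ∑ j ∈ SA i, d j) +
      (∑ j ∈ SB i i', d j + ∑ j ∈ SC i', d j) := by
    rw [next_deriv, split_one i i' hi]
    congr 1
    rw [Finset.mul_sum, ← Finset.sum_add_distrib, Finset.mul_sum]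
  have e4 : (F lam (n + 1) i').derivative.eval x = L * ((∑ j ∈ SA i, v j + ∑ j ∈ SB i i', v j) +
      x * (∑ j ∈ SA i, d j + ∑ j ∈ SB i i', d j)) + ∑ j ∈ SC i', d j := by
    rw [next_deriv, split_two i i' hi]
    congr 1
    have h1 : ∀ S : Finset (Fin (n + 1)), ∑ j ∈ S, (L * ((F lam n j).eval x +
        x * (F lam n j).derivative.eval x)) = L * (∑ j ∈ S, v j + x * ∑ j ∈ S, d j) := by
      intro S
      rw [Finset.mul_sum, ← Finset.sum_add_distrib, Finset.mul_sum]
    rw [h1, h1]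
    ring
  rw [e1, e2, e3, e4]
  exact key

theorem family {lam : ℕ → ℝ} (hl : ∀ k, 0 < lam k) (x : ℝ) : ∀ (n : ℕ) (k j : Fin (n + 1)),
    k < j → 0 ≤ (F lam n j).eval x * (F lam n k).derivative.eval x -
        (F lam n j).derivative.eval x * (F lam n k).eval x ∧
      0 ≤ (F lam n j).eval x * (F lam n k).eval x - x *
        ((F lam n j).eval x * (F lam n k).derivative.eval x -
        (F lam n j).derivative.eval x * (F lam n k).eval x)
  | 0, k, j, h => absurd h (by omega)
  | n + 1, k, j, h => by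
    have h1 := step hl n x (family hl x n) k j h.le
    exact ⟨le_trans (mul_nonneg (hl _).le (sq_nonneg _)) h1.1, h1.2⟩

theorem wronskian_ge {lam : ℕ → ℝ} (hl : ∀ k, 0 < lam k) (n : ℕ) (x : ℝ) :
    (∀ i' : Fin (n + 2), lam (n + 1) * (∑ j ∈ SA i', (F lam n j).eval x) ^ 2 ≤
    (e lam (n + 1)).eval x * (e lam (n + 2)).derivative.eval x -
      (e lam (n + 1)).derivative.eval x * (e lam (n + 2)).eval x) := by
  intro i'
  have h1 : (e lam (n + 1)).eval x * (e lam (n + 2)).derivative.eval x -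
      (e lam (n + 1)).derivative.eval x * (e lam (n + 2)).eval x =
      ∑ i : Fin (n + 2), ((F lam (n + 1) (Fin.last _)).eval x *
        (F lam (n + 1) i).derivative.eval x - (F lam (n + 1) (Fin.last _)).derivative.eval x *
        (F lam (n + 1) i).eval x) := by
    rw [F_last, e_succ lam (n + 1), derivative_sum, eval_finsetSum, eval_finsetSum,
      Finset.mul_sum, Finset.mul_sum, ← Finset.sum_sub_distrib]
  have h2 : ∀ i : Fin (n + 2), lam (n + 1) * (∑ j ∈ SA i, (F lam n j).eval x) ^ 2 ≤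
      (F lam (n + 1) (Fin.last _)).eval x *
        (F lam (n + 1) i).derivative.eval x - (F lam (n + 1) (Fin.last _)).derivative.eval x *
        (F lam (n + 1) i).eval x := by
    intro i
    have h3 := (step hl n x (family hl x n) i (Fin.last _) (Fin.le_last _)).1
    have h4 : SB (Fin.last (n + 1)) i = SA i := by
      ext j
      simp only [SA, SB, Finset.mem_filter, Finset.mem_univ, true_and]
      exact ⟨fun h => h.1, fun h => ⟨h, Fin.castSucc_lt_last _⟩⟩
    rwa [h4] at h3
  rw [h1]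
  refine (h2 i').trans (Finset.single_le_sum (f := fun i => (F lam (n + 1) (Fin.last _)).eval x *
        (F lam (n + 1) i).derivative.eval x - (F lam (n + 1) (Fin.last _)).derivative.eval x *
        (F lam (n + 1) i).eval x) (fun i _ => ?_) (Finset.mem_univ i'))
  exact le_trans (mul_nonneg (hl _).le (sq_nonneg _)) (h2 i)

theorem eval_ne {lam : ℕ → ℝ} (hl : ∀ k, 0 < lam k) (x : ℝ) : ∀ n : ℕ,
    (e lam n).eval x ≠ 0 ∨ (e lam (n + 1)).eval x ≠ 0
  | 0 => by
    left
    have : e lam 0 = 1 := by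
      rw [e]
      have h1 : ∀ π : Equiv.Perm (Fin 0), DES π = ∅ := by
        intro π
        rw [Finset.eq_empty_iff_forall_notMem]
        intro k hk
        have := DES_lt π hk
        omega
      simp [h1]
    rw [this]
    simp
  | n + 1 => by
    by_contra hcon
    push Not at hcon
    obtain ⟨h1, h2⟩ := hcon
    have h3 := wronskian_ge hl n x
    rw [h1, h2] at h3
    have h5 : ∀ i' : Fin (n + 2), ∑ j ∈ SA i', (F lam n j).eval x = 0 := by
      intro i'
      have h4 := h3 i'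
      rw [zero_mul, mul_zero, sub_zero] at h4
      have h6 : (∑ j ∈ SA i', (F lam n j).eval x) ^ 2 ≤ 0 := by
        by_contra hc
        push Not at hc
        have := mul_pos (hl (n + 1)) hc
        linarith
      exact pow_eq_zero_iff (two_ne_zero) |>.1 (le_antisymm h6 (sq_nonneg _))
    have h7 := h5 (Fin.last n).castSucc
    have h8 : SA (Fin.last n).castSucc = {Fin.last n} := by
      ext j
      simp only [SA, Finset.mem_filter, Finset.mem_univ, true_and, Finset.mem_singleton,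
        Fin.castSucc_le_castSucc_iff]
      exact ⟨fun h => le_antisymm (Fin.le_last _) h, fun h => h.ge⟩
    rw [h8, Finset.sum_singleton, F_last] at h7
    rcases eval_ne hl x n with h | h
    · exact h h7
    · exact h h1

theorem wronskian_pos {lam : ℕ → ℝ} (hl : ∀ k, 0 < lam k) (n : ℕ) (x : ℝ) :
    0 < (e lam (n + 1)).eval x * (e lam (n + 2)).derivative.eval x -
      (e lam (n + 1)).derivative.eval x * (e lam (n + 2)).eval x := by
  have h3 := wronskian_ge hl n x
  have hpos : ∀ s : ℝ, s ≠ 0 → 0 < lam (n + 1) * s ^ 2 := fun s hs =>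
    mul_pos (hl _) (by positivity)
  rcases eval_ne hl x n with h | h
  · have h7 := h3 (Fin.last n).castSucc
    have h8 : SA (Fin.last n).castSucc = {Fin.last n} := by
      ext j
      simp only [SA, Finset.mem_filter, Finset.mem_univ, true_and, Finset.mem_singleton,
        Fin.castSucc_le_castSucc_iff]
      exact ⟨fun h => le_antisymm (Fin.le_last _) h, fun h => h.ge⟩
    rw [h8, Finset.sum_singleton, F_last] at h7
    exact lt_of_lt_of_le (hpos _ h) h7
  · have h7 := h3 0
    have h8 : SA (0 : Fin (n + 2)) = Finset.univ := by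
      ext j
      simp [SA]
    rw [h8, ← eval_finsetSum, ← e_succ] at h7
    exact lt_of_lt_of_le (hpos _ h) h7

/-! ### degree, leading and constant coefficient -/

theorem prod_DES {n : ℕ} (lam : ℕ → ℝ) (π : Equiv.Perm (Fin n)) :
    ∏ k ∈ DES π, (C (lam k) * X) = C (∏ k ∈ DES π, lam k) * X ^ (DES π).card := by
  rw [Finset.prod_mul_distrib, Finset.prod_const, map_prod]

theorem card_DES {n : ℕ} (π : Equiv.Perm (Fin (n + 1))) : (DES π).card ≤ n := by
  have h : DES π ⊆ Finset.Ioo 0 (n + 1) := by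
    intro k hk
    have := DES_lt π hk
    rw [Finset.mem_Ioo]
    omega
  have := Finset.card_le_card h
  simpa using this

theorem degree_e (lam : ℕ → ℝ) (n : ℕ) : (e lam (n + 1)).natDegree ≤ n := by
  rw [e]
  refine natDegree_sum_le_of_forall_le _ _ fun π _ => ?_
  rw [prod_DES]
  exact (natDegree_C_mul_X_pow_le _ _).trans (card_DES π)

theorem coeff_e_pos {lam : ℕ → ℝ} (hl : ∀ k, 0 < lam k) (n : ℕ) :
    0 < (e lam (n + 1)).coeff n := by
  rw [e, finsetSum_coeff]
  have hnn : ∀ π : Equiv.Perm (Fin (n + 1)), 0 ≤ (∏ k ∈ DES π, (C (lam k) * X)).coeff n := by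
    intro π
    rw [prod_DES, coeff_C_mul, coeff_X_pow]
    have := Finset.prod_pos (s := DES π) (f := lam) (fun k _ => hl k)
    split_ifs
    · simpa using this.le
    · simp
  refine lt_of_lt_of_le ?_ (Finset.single_le_sum (fun π _ => hnn π)
    (Finset.mem_univ (Fin.revPerm : Equiv.Perm (Fin (n + 1)))))
  rw [prod_DES, coeff_C_mul, coeff_X_pow]
  have hD : DES (Fin.revPerm : Equiv.Perm (Fin (n + 1))) = Finset.Ioo 0 (n + 1) := by
    ext k
    rw [DES, Finset.mem_filter, Finset.mem_Ioo, Finset.mem_range]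
    constructor
    · rintro ⟨h1, h2, _⟩
      exact ⟨h2, h1⟩
    · rintro ⟨h1, h2⟩
      refine ⟨h2, h1, h2, ?_⟩
      rw [Fin.revPerm_apply, Fin.revPerm_apply, Fin.rev_lt_rev, Fin.lt_def]
      simp only
      omega
  rw [hD, Nat.card_Ioo, if_pos (by omega), mul_one]
  exact Finset.prod_pos fun k _ => hl k

theorem eval_zero_pos (lam : ℕ → ℝ) (n : ℕ) : 0 < (e lam n).eval 0 := by
  rw [e, eval_finsetSum]
  have hnn : ∀ π : Equiv.Perm (Fin n), 0 ≤ (∏ k ∈ DES π, (C (lam k) * X)).eval 0 := by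
    intro π
    rw [eval_prod]
    rcases (DES π).eq_empty_or_nonempty with h | ⟨k, hk⟩
    · rw [h]; simp
    · rw [Finset.prod_eq_zero hk (by simp)]
  refine lt_of_lt_of_le ?_ (Finset.single_le_sum (fun π _ => hnn π)
    (Finset.mem_univ (1 : Equiv.Perm (Fin n))))
  have hD : DES (1 : Equiv.Perm (Fin n)) = ∅ := by
    rw [Finset.eq_empty_iff_forall_notMem]
    intro k hk
    rw [DES, Finset.mem_filter] at hk
    obtain ⟨_, h1, h2, h3⟩ := hk
    rw [Equiv.Perm.one_apply, Equiv.Perm.one_apply, Fin.lt_def] at h3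
    simp only at h3
    omega
  rw [hD]
  simp

/-- `f` and `g` have degrees `m` and `m + 1`, only real roots, and the roots
`x_0 > x_1 > ...` of `f` and `y_0 > y_1 > ...` of `g` satisfy
`0 > y_0 > x_0 > y_1 > x_1 > ... > x_{m-1} > y_m`. -/
def StrictlyInterlaces (m : ℕ) (f g : ℝ[X]) : Prop :=
  ∃ (x : Fin m → ℝ) (y : Fin (m + 1) → ℝ) (a b : ℝ), 0 < a ∧ 0 < b ∧
    f = C a * ∏ i, (X - C (x i)) ∧ g = C b * ∏ i, (X - C (y i)) ∧
    y 0 < 0 ∧ ∀ i : Fin m, x i < y i.castSucc ∧ y i.succ < x i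

theorem roots_e {lam : ℕ → ℝ} (hl : ∀ k, 0 < lam k) : ∀ n : ℕ, ∃ x : Fin n → ℝ, StrictAnti x ∧
    (∀ i, x i < 0) ∧ e lam (n + 1) = C ((e lam (n + 1)).coeff n) * ∏ i, (X - C (x i))
  | 0 => by
    refine ⟨fun i => i.elim0, fun i => i.elim0, fun i => i.elim0, ?_⟩
    rw [Finset.univ_eq_empty, Finset.prod_empty, mul_one]
    exact eq_C_of_natDegree_le_zero (degree_e lam 0)
  | n + 1 => by
    obtain ⟨x, hx, hx0, hf⟩ := roots_e hl n
    obtain ⟨y, hy1, hy2, hy3, _⟩ := interlace_step (e lam (n + 1)) (e lam (n + 2)) _ x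
      (coeff_e_pos hl n) hx hx0 hf (degree_e lam (n + 1)) (coeff_e_pos hl (n + 1))
      (eval_zero_pos lam (n + 2)) (wronskian_pos hl n)
    exact ⟨y, hy2, hy3, hy1⟩

/-- For all positive weights, `e_{n-1}` and `e_n` interlace (strictly), for each `n ≥ 2`. -/
theorem result (lam : ℕ → ℝ) (hl : ∀ k, 0 < lam k) (n : ℕ) (hn : 2 ≤ n) :
    StrictlyInterlaces (n - 2) (e lam (n - 1)) (e lam n) := by
  obtain ⟨m, rfl⟩ : ∃ m, n = m + 2 := ⟨n - 2, by omega⟩
  obtain ⟨x, hx, hx0, hf⟩ := roots_e hl m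
  obtain ⟨y, hy1, hy2, hy3, hy4⟩ := interlace_step (e lam (m + 1)) (e lam (m + 2)) _ x
    (coeff_e_pos hl m) hx hx0 hf (degree_e lam (m + 1)) (coeff_e_pos hl (m + 1))
    (eval_zero_pos lam (m + 2)) (wronskian_pos hl m)
  exact ⟨x, y, _, _, coeff_e_pos hl m, coeff_e_pos hl (m + 1), hf, hy1, hy3 0, hy4⟩

end Pool.Agent.Results.MP_9d2565_co.Interlacing
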